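import Pool.Agent.Q178.GC.Th

set_option autoImplicit false

/-! # Project GC: the mean number of the missed points (job GC10) -/

namespace Pool.Agent.Q178.GC

open Finset Filter Topology
open Pool.Agent.Q145.GC

/-- Riemann sums -/
theorem riemann {G : ℝ → ℝ} (hG : Continuous G) :
    Tendsto (fun N : ℕ => (∑ n ∈ Icc 1 N, G ((n : ℝ) / N)) / N) atTop (𝓝 (∫ x in (0:ℝ)..1, G x)) := by
  rw [Metric.tendsto_atTop]
  intro ε hε
  have huc : UniformContinuousOn G (Set.Icc 0 1) :=
    isCompact_Icc.uniformContinuousOn_of_continuous hG.continuousOn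
  rw [Metric.uniformContinuousOn_iff] at huc
  obtain ⟨δ, hδ, hd⟩ := huc (ε / 2) (by positivity)
  obtain ⟨N0, hN0⟩ := exists_nat_gt (1 / δ)
  refine ⟨N0 + 1, fun N hN => ?_⟩
  have hNp : (0:ℝ) < N := by exact_mod_cast (by omega : 0 < N)
  have hNδ : 1 / (N : ℝ) < δ := by
    have h1 : (N0 : ℝ) ≤ N := by exact_mod_cast (by omega : N0 ≤ N)
    rw [div_lt_iff₀ hNp]
    rw [div_lt_iff₀ hδ] at hN0
    nlinarith
  have hint : ∀ a b : ℝ, IntervalIntegrable G MeasureTheory.volume a b := fun a b => hG.intervalIntegrable a b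
  have h1 : ∫ x in (0:ℝ)..1, G x = ∑ i ∈ range N, ∫ x in ((i:ℝ) / N)..(((i + 1 : ℕ) : ℝ) / N), G x := by
    rw [intervalIntegral.sum_integral_adjacent_intervals (a := fun i : ℕ => (i : ℝ) / N) (fun k _ => hint _ _)]
    simp [div_self hNp.ne']
  have h2 : (∑ n ∈ Icc 1 N, G ((n : ℝ) / N)) / N = ∑ i ∈ range N, ∫ x in ((i:ℝ) / N)..(((i + 1 : ℕ) : ℝ) / N),
      G (((i + 1 : ℕ) : ℝ) / N) := by
    have e1 : ∑ n ∈ Icc 1 N, G ((n : ℝ) / N) = ∑ i ∈ range N, G (((i + 1 : ℕ) : ℝ) / N) := by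
      have hs := sum_Ico_add' (fun n : ℕ => G ((n : ℝ) / N)) 0 N 1
      have hI : Icc 1 N = Ico (0 + 1) (N + 1) := by
        ext i
        simp only [mem_Icc, mem_Ico]
        omega
      rw [range_eq_Ico, hI]
      exact hs.symm
    rw [e1, sum_div]
    refine sum_congr rfl fun i _ => ?_
    rw [intervalIntegral.integral_const, smul_eq_mul]
    push_cast
    field_simp
    ring
  rw [Real.dist_eq, h1, h2, ← sum_sub_distrib]
  refine lt_of_le_of_lt (abs_sum_le_sum_abs _ _) ?_
  have h3 : ∀ i ∈ range N, |(∫ x in ((i:ℝ) / N)..(((i + 1 : ℕ) : ℝ) / N), G (((i + 1 : ℕ) : ℝ) / N)) -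
      ∫ x in ((i:ℝ) / N)..(((i + 1 : ℕ) : ℝ) / N), G x| ≤ ε / 2 * (1 / N) := by
    intro i hi
    have hiN : (i:ℝ) + 1 ≤ N := by exact_mod_cast mem_range.1 hi
    have hi0 : (0:ℝ) ≤ i := Nat.cast_nonneg i
    have hle : (i:ℝ) / N ≤ ((i + 1 : ℕ) : ℝ) / N := by
      apply div_le_div_of_nonneg_right _ hNp.le
      push_cast; linarith
    rw [← intervalIntegral.integral_sub (by simp) (hint _ _), ← Real.norm_eq_abs]
    have h4 := intervalIntegral.norm_integral_le_of_norm_le_const (a := (i:ℝ) / N) (b := ((i + 1 : ℕ) : ℝ) / N)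
      (C := ε / 2) (f := fun x => G (((i + 1 : ℕ) : ℝ) / N) - G x) (fun x hx => by
        rw [Set.uIoc_of_le hle] at hx
        have hx1 : ((i + 1 : ℕ) : ℝ) / N ≤ 1 := by
          rw [div_le_one hNp]; push_cast; exact hiN
        have hx0 : 0 ≤ x := (div_nonneg hi0 hNp.le).trans hx.1.le
        have h5 := hd (((i + 1 : ℕ) : ℝ) / N) ⟨by positivity, hx1⟩ x ⟨hx0, hx.2.trans hx1⟩ (by
          rw [Real.dist_eq, abs_of_nonneg (by linarith [hx.2])]
          have : ((i + 1 : ℕ) : ℝ) / N - (i:ℝ) / N = 1 / N := by push_cast; ring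
          linarith [hx.1])
        rw [Real.dist_eq] at h5
        exact h5.le)
    have e2 : |((i + 1 : ℕ) : ℝ) / N - (i:ℝ) / N| = 1 / N := by
      have : ((i + 1 : ℕ) : ℝ) / N - (i:ℝ) / N = 1 / N := by push_cast; ring
      rw [this, abs_of_pos (by positivity)]
    rw [e2] at h4
    exact h4
  calc ∑ i ∈ range N, |(∫ x in ((i:ℝ) / N)..(((i + 1 : ℕ) : ℝ) / N), G (((i + 1 : ℕ) : ℝ) / N)) -
      ∫ x in ((i:ℝ) / N)..(((i + 1 : ℕ) : ℝ) / N), G x| ≤ ∑ i ∈ range N, ε / 2 * (1 / N) := sum_le_sum h3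
    _ = ε / 2 := by
        rw [sum_const, card_range, nsmul_eq_mul]
        field_simp
    _ < ε := by linarith

theorem psi0_cont : Continuous psi0 := by
  unfold psi0
  exact (Real.continuous_mul_log.comp (continuous_id.add continuous_const)).sub Real.continuous_mul_log

theorem psi0_bd : ∃ B : ℝ, 1 ≤ B ∧ ∀ x ∈ Set.Icc (0:ℝ) 1, |psi0 x| ≤ B := by
  obtain ⟨B, hB⟩ := isCompact_Icc.exists_bound_of_continuousOn (f := psi0) (s := Set.Icc (0:ℝ) 1) psi0_cont.continuousOn
  exact ⟨max B 1, le_max_right _ _, fun x hx => (hB x hx).trans (le_max_left _ _)⟩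

theorem mean : S_Mean := by
  intro ρ u X Y k hρ hX hXY hrho hk
  obtain ⟨C, Y0, hC, hth⟩ := th_asym
  obtain ⟨B, hB1, hB⟩ := psi0_bd
  -- sequences
  have hXr : Tendsto (fun i => (X i : ℝ)) atTop atTop := tendsto_natCast_atTop_atTop.comp hX
  have hY : Tendsto Y atTop atTop := tendsto_atTop_mono hXY hX
  have hL : Tendsto (fun i => Real.log (Y i)) atTop atTop :=
    Real.tendsto_log_atTop.comp (tendsto_natCast_atTop_atTop.comp hY)
  set a : ℕ → ℝ := fun i => ((k i : ℝ) - Real.log (X i) * Real.log (Y i)) / Real.log (Y i) - u with ha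
  set b : ℕ → ℝ := fun i => (k i : ℝ) / Real.log (Y i) ^ 2 with hb
  have ha0 : Tendsto a atTop (𝓝 0) := by
    have := hk.sub_const u
    rwa [sub_self] at this
  have hLi : Tendsto (fun i => (Real.log (Y i))⁻¹) atTop (𝓝 0) := tendsto_inv_atTop_zero.comp hL
  have hb0 : Tendsto b atTop (𝓝 ρ) := by
    have h1 := (hk.mul hLi).add hrho
    rw [mul_zero, zero_add] at h1
    refine h1.congr' ?_
    filter_upwards [hL.eventually_ge_atTop 1] with i hi
    simp only [hb]
    have : Real.log (Y i) ≠ 0 := by linarith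
    field_simp
    ring
  set K : ℝ := C + 3 * (1 + B + C) + 16 with hK
  set δ : ℕ → ℝ := fun i => |a i| + (2 + B) * |b i - ρ| + |b i| * K * (Real.log (Y i))⁻¹ with hδ
  have hδ0 : Tendsto δ atTop (𝓝 0) := by
    have h1 : Tendsto (fun i => |a i|) atTop (𝓝 0) := by
      have := ha0.abs
      rwa [abs_zero] at this
    have h2 : Tendsto (fun i => (2 + B) * |b i - ρ|) atTop (𝓝 0) := by
      have := ((hb0.sub_const ρ).abs).const_mul (2 + B)
      rwa [sub_self, abs_zero, mul_zero] at this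
    have h3 : Tendsto (fun i => |b i| * K * (Real.log (Y i))⁻¹) atTop (𝓝 0) := by
      have := (hb0.abs.mul_const K).mul hLi
      rwa [mul_zero] at this
    have := (h1.add h2).add h3
    rwa [add_zero, add_zero] at this
  set G : ℝ → ℝ := fun x => Real.exp (-u) * Real.exp (ρ * (psi0 x - 3 / 2)) with hG
  have hGc : Continuous G := by
    simp only [hG]
    have := psi0_cont
    fun_prop
  set M : ℝ := Real.exp (-u) * Real.exp (ρ * (B + 3 / 2)) with hM
  have hGM : ∀ x ∈ Set.Icc (0:ℝ) 1, G x ≤ M := by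
    intro x hx
    simp only [hG, hM]
    have h1 := hB x hx
    have h2 := (abs_le.1 h1).2
    gcongr
    linarith
  -- the main estimate
  have key : ∀ᶠ i in atTop, ∀ n ∈ Icc 1 (Y i),
      |(X i : ℝ) * (1 - th (Y i) n) ^ (k i) - G ((n : ℝ) / Y i)| ≤ 2 * M * δ i := by
    filter_upwards [hY.eventually_ge_atTop Y0, hL.eventually_ge_atTop (2 * (1 + B + C) + 2), hδ0.eventually_le_const one_pos,
      hXr.eventually_ge_atTop 1] with i hi0 hiL hi1 hiX
    obtain ⟨hL3, hY4, hn⟩ := hth (Y i) hi0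
    intro n hnm
    rw [mem_Icc] at hnm
    set L := Real.log (Y i) with hLd
    set t := th (Y i) n with ht
    set x : ℝ := (n : ℝ) / Y i with hx
    have hYp : (0:ℝ) < Y i := by exact_mod_cast (by omega : 0 < Y i)
    have hx01 : x ∈ Set.Icc (0:ℝ) 1 := by
      refine ⟨by positivity, ?_⟩
      rw [hx, div_le_one hYp]
      exact_mod_cast hnm.2
    have hps := hB x hx01
    have hLp : 0 < L := by linarith
    have hL1 : 1 ≤ L := by linarith
    set κ : ℝ := 1 - psi0 x with hκ
    have hκB : |κ| ≤ 1 + B := by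
      rw [hκ]
      refine (abs_sub _ _).trans ?_
      rw [abs_one]
      linarith
    have h1 := hn n hnm.1 hnm.2
    set r : ℝ := t - (1 / L + κ / L ^ 2) with hr
    have hr1 : |r| ≤ C / L ^ 3 := h1
    have ht1 : |t - 1 / L| ≤ (1 + B + C) / L ^ 2 := by
      have e : t - 1 / L = κ / L ^ 2 + r := by rw [hr]; ring
      rw [e]
      refine (abs_add_le _ _).trans ?_
      rw [abs_div, abs_of_pos (show 0 < L ^ 2 by positivity)]
      have h2 : C / L ^ 3 ≤ C / L ^ 2 := by
        apply div_le_div_of_nonneg_left hC.le (by positivity)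
        exact pow_le_pow_right₀ hL1 (by norm_num)
      calc |κ| / L ^ 2 + |r| ≤ (1 + B) / L ^ 2 + C / L ^ 2 := by
            gcongr
            exact hr1.trans h2
        _ = _ := by ring
    have ht2 : |t - 1 / L| ≤ 1 / L := by
      refine ht1.trans ?_
      rw [div_le_div_iff₀ (by positivity) hLp]
      nlinarith
    have ht3 : |t| ≤ 2 / L := by
      have e : t = (t - 1 / L) + 1 / L := by ring
      rw [e]
      refine (abs_add_le _ _).trans ?_
      rw [abs_of_pos (show 0 < 1 / L by positivity)]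
      calc |t - 1 / L| + 1 / L ≤ 1 / L + 1 / L := by gcongr
        _ = _ := by ring
    have ht4 : |t| ≤ 1 / 2 := by
      refine ht3.trans ?_
      rw [div_le_div_iff₀ hLp (by norm_num)]
      nlinarith
    have ht5 : 0 < 1 - t := by
      have := (abs_le.1 ht4).2
      linarith
    have hlog := Real.abs_log_sub_add_sum_range_le (x := t) (by linarith) 2
    have hsum : ∑ i ∈ range 2, t ^ (i + 1) / ((i : ℝ) + 1) = t + t ^ 2 / 2 := by
      rw [sum_range_succ, sum_range_one]
      norm_num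
    rw [hsum] at hlog
    have hlog2 : |t + t ^ 2 / 2 + Real.log (1 - t)| ≤ 2 * |t| ^ 3 := by
      refine hlog.trans ?_
      rw [div_le_iff₀ (by linarith)]
      have h3 : 0 ≤ |t| ^ 3 := by positivity
      show |t| ^ 3 ≤ 2 * |t| ^ 3 * (1 - |t|)
      have h4 : 0 ≤ |t| ^ 3 * (1 / 2 - |t|) := mul_nonneg h3 (by linarith)
      linarith
    -- the exponent
    set E : ℝ := Real.log (X i) + k i * Real.log (1 - t) - (-u + ρ * (psi0 x - 3 / 2)) with hE
    have hkb : (k i : ℝ) = b i * L ^ 2 := by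
      have : b i = (k i : ℝ) / L ^ 2 := rfl
      rw [this]
      field_simp
    have hb00 : 0 ≤ b i := by simp only [hb]; positivity
    have hai : a i = k i / L - Real.log (X i) - u := by
      show ((k i : ℝ) - Real.log (X i) * L) / L - u = _
      field_simp
    have e1 : E = -(a i) + (κ + 1 / 2) * (ρ - b i) - k i * r - k i * ((t - 1 / L) * (t + 1 / L)) / 2 +
        k i * (t + t ^ 2 / 2 + Real.log (1 - t)) := by
      rw [hE, hai]
      have e2 : t = 1 / L + κ / L ^ 2 + r := by rw [hr]; ring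
      have e3 : (k i : ℝ) * t = k i / L + b i * κ + k i * r := by
        rw [e2]
        have : b i = (k i : ℝ) / L ^ 2 := rfl
        rw [this]
        field_simp
      have e4 : (k i : ℝ) * (t ^ 2 / 2) = k i * ((t - 1 / L) * (t + 1 / L)) / 2 + b i / 2 := by
        have : b i = (k i : ℝ) / L ^ 2 := rfl
        rw [this]
        field_simp
        ring
      have e5 : psi0 x = 1 - κ := by rw [hκ]; ring
      rw [e5]
      linear_combination (-1 : ℝ) * e3 - e4
    have hEb : |E| ≤ δ i := by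
      rw [e1]
      have g1 : |(κ + 1 / 2) * (ρ - b i)| ≤ (2 + B) * |b i - ρ| := by
        rw [abs_mul, abs_sub_comm ρ (b i)]
        gcongr
        refine (abs_add_le _ _).trans ?_
        rw [abs_of_pos (show (0:ℝ) < 1 / 2 by norm_num)]
        linarith
      have g2 : |k i * r| ≤ b i * C * L⁻¹ := by
        rw [abs_mul, Nat.abs_cast, hkb]
        calc b i * L ^ 2 * |r| ≤ b i * L ^ 2 * (C / L ^ 3) := by gcongr
          _ = _ := by field_simp
      have g3 : |k i * ((t - 1 / L) * (t + 1 / L)) / 2| ≤ b i * (3 * (1 + B + C)) * L⁻¹ := by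
        rw [abs_div, abs_mul, abs_mul, Nat.abs_cast, hkb, abs_two]
        have g4 : |t + 1 / L| ≤ 3 / L := by
          refine (abs_add_le _ _).trans ?_
          rw [abs_of_pos (show 0 < 1 / L by positivity)]
          calc |t| + 1 / L ≤ 2 / L + 1 / L := by gcongr
            _ = _ := by ring
        calc b i * L ^ 2 * (|t - 1 / L| * |t + 1 / L|) / 2 ≤
            b i * L ^ 2 * ((1 + B + C) / L ^ 2 * (3 / L)) / 2 := by gcongr
          _ = b i * (3 * (1 + B + C)) * L⁻¹ / 2 := by field_simp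
          _ ≤ _ := by
              have : 0 ≤ b i * (3 * (1 + B + C)) * L⁻¹ := by positivity
              linarith
      have g5 : |k i * (t + t ^ 2 / 2 + Real.log (1 - t))| ≤ b i * 16 * L⁻¹ := by
        rw [abs_mul, Nat.abs_cast, hkb]
        calc b i * L ^ 2 * |t + t ^ 2 / 2 + Real.log (1 - t)| ≤ b i * L ^ 2 * (2 * |t| ^ 3) := by gcongr
          _ ≤ b i * L ^ 2 * (2 * (2 / L) ^ 3) := by gcongr
          _ = _ := by field_simp; norm_num
      have g6 : δ i = |a i| + (2 + B) * |b i - ρ| + (b i * C * L⁻¹ + b i * (3 * (1 + B + C)) * L⁻¹ + b i * 16 * L⁻¹) := by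
        simp only [hδ]
        rw [abs_of_nonneg hb00, hK]
        ring
      rw [g6]
      have g7 : ∀ p q s v w : ℝ, |-p + q - s - v + w| ≤ |p| + |q| + |s| + |v| + |w| := by
        intro p q s v w
        calc |-p + q - s - v + w| ≤ |-p + q - s - v| + |w| := abs_add_le _ _
          _ ≤ |-p + q - s| + |v| + |w| := by gcongr; exact abs_sub _ _
          _ ≤ |-p + q| + |s| + |v| + |w| := by gcongr; exact abs_sub _ _
          _ ≤ |-p| + |q| + |s| + |v| + |w| := by gcongr; exact abs_add_le _ _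
          _ = _ := by rw [abs_neg]
      refine (g7 _ _ _ _ _).trans ?_
      linarith
    have hXp : (0:ℝ) < X i := by linarith
    have e6 : (X i : ℝ) * (1 - t) ^ (k i) = G x * Real.exp E := by
      simp only [hG]
      rw [← Real.exp_add, ← Real.exp_add, hE]
      have : -u + ρ * (psi0 x - 3 / 2) + (Real.log (X i) + k i * Real.log (1 - t) - (-u + ρ * (psi0 x - 3 / 2))) =
          Real.log (X i) + k i * Real.log (1 - t) := by ring
      rw [this, Real.exp_add, Real.exp_log hXp, Real.exp_nat_mul, Real.exp_log ht5]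
    rw [e6]
    have e7 : G x * Real.exp E - G x = G x * (Real.exp E - 1) := by ring
    have hGp : 0 < G x := by simp only [hG]; positivity
    rw [e7, abs_mul, abs_of_pos hGp]
    have h9 := Real.abs_exp_sub_one_le (hEb.trans hi1)
    calc G x * |Real.exp E - 1| ≤ M * (2 * δ i) := by
          have := hGM x hx01
          have hM0 : 0 ≤ M := by simp only [hM]; positivity
          gcongr
          linarith
      _ = _ := by ring
  have hR : Tendsto (fun i => (∑ n ∈ Icc 1 (Y i), G ((n : ℝ) / Y i)) / Y i) atTop (𝓝 (∫ x in (0:ℝ)..1, G x)) :=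
    (riemann hGc).comp hY
  have hD : Tendsto (fun i => (X i : ℝ) * ((∑ n ∈ Icc 1 (Y i), (1 - th (Y i) n) ^ (k i)) / Y i) -
      (∑ n ∈ Icc 1 (Y i), G ((n : ℝ) / Y i)) / Y i) atTop (𝓝 0) := by
    refine squeeze_zero_norm' (a := fun i => 2 * M * δ i) ?_ ?_
    · filter_upwards [key, hY.eventually_ge_atTop 1] with i hi hYi
      have hYp : (0:ℝ) < Y i := by exact_mod_cast (by omega : 0 < Y i)
      have e : (X i : ℝ) * ((∑ n ∈ Icc 1 (Y i), (1 - th (Y i) n) ^ (k i)) / Y i) -
          (∑ n ∈ Icc 1 (Y i), G ((n : ℝ) / Y i)) / Y i =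
          (∑ n ∈ Icc 1 (Y i), ((X i : ℝ) * (1 - th (Y i) n) ^ (k i) - G ((n : ℝ) / Y i))) / Y i := by
        have e0 : ∑ n ∈ Icc 1 (Y i), ((X i : ℝ) * (1 - th (Y i) n) ^ (k i) - G ((n : ℝ) / Y i)) =
            (X i : ℝ) * ∑ n ∈ Icc 1 (Y i), (1 - th (Y i) n) ^ (k i) - ∑ n ∈ Icc 1 (Y i), G ((n : ℝ) / Y i) := by
          rw [sum_sub_distrib, mul_sum]
        rw [e0, mul_div_assoc', sub_div]
      rw [e, Real.norm_eq_abs, abs_div, abs_of_pos hYp, div_le_iff₀ hYp]
      refine (abs_sum_le_sum_abs _ _).trans ((sum_le_sum hi).trans ?_)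
      rw [sum_const, Nat.card_Icc, nsmul_eq_mul, Nat.add_sub_cancel]
      exact le_of_eq (by ring)
    · have := hδ0.const_mul (2 * M)
      rwa [mul_zero] at this
  have hfin := hD.add hR
  rw [zero_add] at hfin
  have e8 : ∫ x in (0:ℝ)..1, G x = Real.exp (-u) * ∫ x in (0 : ℝ)..1,
      Real.exp (ρ * ((x + 1) * Real.log (x + 1) - x * Real.log x - 3 / 2)) := by
    simp only [hG, psi0]
    rw [intervalIntegral.integral_const_mul]
  rw [e8] at hfin
  refine hfin.congr fun i => ?_
  ring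

end Pool.Agent.Q178.GC
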