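import Pool.Agent.H373R2.T7.LamMaj
import Pool.Agent.Q178.GC.Mean

set_option autoImplicit false

/-! # Project GC: the degrees and the degrees in the classes modulo `W` (job GC8) -/

namespace Pool.Agent.Q178.GC

open Finset Filter Topology
open Pool.Agent.Q145.GC
open H343E

/-- N1: degrees -/
theorem thb : S_Th := by
  obtain ⟨C, Y₀, hC, h⟩ := th_asym
  obtain ⟨B, hB1, hB⟩ := psi0_bd
  refine ⟨C + 1 + B, Y₀, fun Y hY n hn hnY => ?_⟩
  obtain ⟨hL3, hY4, h1⟩ := h Y hY
  have h2 := h1 n hn hnY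
  have hYp : (0:ℝ) < Y := by exact_mod_cast (by omega : 0 < Y)
  have hx : (n : ℝ) / Y ∈ Set.Icc (0:ℝ) 1 := ⟨by positivity, by
    rw [div_le_one hYp]; exact_mod_cast hnY⟩
  have h3 := hB _ hx
  set L := Real.log Y with hL
  have hL0 : 0 < L := by linarith
  set v := Pool.Agent.Q178.GC.psi0 ((n : ℝ) / Y) with hv
  have h4 : C / L ^ 3 ≤ C / L ^ 2 :=
    div_le_div_of_nonneg_left hC.le (by positivity) (pow_le_pow_right₀ (by linarith) (by norm_num))
  have h5 : |(1 - v) / L ^ 2| ≤ (1 + B) / L ^ 2 := by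
    rw [abs_div, abs_of_pos (show (0:ℝ) < L ^ 2 by positivity)]
    apply div_le_div_of_nonneg_right _ (by positivity)
    rw [abs_le] at h3 ⊢
    constructor <;> linarith [h3.1, h3.2]
  have h6 : th Y n - 1 / L = (th Y n - (1 / L + (1 - v) / L ^ 2)) + (1 - v) / L ^ 2 := by ring
  rw [h6]
  refine (abs_add_le _ _).trans ?_
  have h7 : (C + 1 + B) / L ^ 2 = C / L ^ 2 + (1 + B) / L ^ 2 := by ring
  rw [h7]
  linarith

/-- primes in a coprime class -/
theorem pi_small (W A : ℕ) (hW : 1 ≤ W) : ∃ Y₀ : ℕ, ∀ Y : ℕ, Y₀ ≤ Y → ∀ x : ℕ, x ≤ 2 * Y → ∀ c : ℕ, c.Coprime W →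
    |piAP x W c - pi1 x / (Nat.totient W : ℝ)| ≤ Y / Real.log Y ^ A := by
  obtain ⟨N0, h0⟩ := Pool.Agent.H373R2.T7.lam_ap 1 (A + 1)
  have ht : Tendsto (fun Y : ℕ => Real.log (Y : ℝ)) atTop atTop :=
    Real.tendsto_log_atTop.comp tendsto_natCast_atTop_atTop
  have e1 := ht.eventually_ge_atTop (W + 20 : ℝ)
  -- √(2Y) log(2Y) * 12 * log ^ A ≤ Y
  have e2 : ∀ᶠ Y : ℕ in atTop, 100 * (√(Y : ℝ) * Real.log Y ^ (A + 1)) ≤ Y := by
    have hl : (fun x : ℝ => Real.log x ^ (A + 1)) =o[atTop] fun x : ℝ => x ^ (1 / 2 : ℝ) := by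
      have := isLittleO_log_rpow_rpow_atTop (A + 1 : ℝ) (s := 1 / 2) (by norm_num)
      refine this.congr' ?_ (by rfl)
      filter_upwards [eventually_ge_atTop (1:ℝ)] with x hx
      rw [show ((A:ℝ) + 1) = ((A + 1 : ℕ) : ℝ) by push_cast; ring, Real.rpow_natCast]
    have h := hl.bound (show (0:ℝ) < 1 / 100 by norm_num)
    have h' := tendsto_natCast_atTop_atTop.eventually h
    filter_upwards [h', eventually_ge_atTop 1] with Y hY hY1
    have hY1' : (1:ℝ) ≤ Y := by exact_mod_cast hY1
    rw [Real.norm_of_nonneg (pow_nonneg (Real.log_nonneg hY1') _), Real.norm_of_nonneg (by positivity),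
      ← Real.sqrt_eq_rpow] at hY
    have hs : √(Y : ℝ) * √(Y : ℝ) = Y := Real.mul_self_sqrt (by linarith)
    nlinarith [Real.sqrt_nonneg (Y : ℝ)]
  obtain ⟨Y1, hY1⟩ := eventually_atTop.1 (e1.and e2)
  refine ⟨max (max N0 Y1) 2, fun Y hY x hx c hc => ?_⟩
  have hYN : N0 ≤ Y := (le_max_left _ _).trans ((le_max_left _ _).trans hY)
  obtain ⟨hL, hbig⟩ := hY1 Y ((le_max_right _ _).trans ((le_max_left _ _).trans hY))
  have hY2 : 2 ≤ Y := (le_max_right _ _).trans hY
  have hYr : (2:ℝ) ≤ Y := by exact_mod_cast hY2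
  have hYp : (0:ℝ) < Y := by linarith
  set L := Real.log Y with hLdef
  have hW0 : (0:ℝ) ≤ W := Nat.cast_nonneg _
  have hL20 : 20 ≤ L := by linarith
  have hL0 : 0 < L := by linarith
  have hφ : (1:ℝ) ≤ Nat.totient W := by exact_mod_cast Nat.totient_pos.2 hW
  rcases Nat.lt_or_ge x 2 with hx2 | hx2
  · have z1 : piAP x W c = 0 := by
      unfold piAP
      rw [filter_eq_empty_iff.2]
      · simp
      · intro p hp hpp
        rw [mem_Icc] at hp
        have := hpp.1.two_le
        omega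
    have z2 : pi1 x = 0 := by
      unfold pi1
      rw [filter_eq_empty_iff.2]
      · simp
      · intro p hp hpp
        rw [mem_Icc] at hp
        have := hpp.two_le
        omega
    rw [z1, z2]
    simp only [zero_div, sub_zero, abs_zero]
    positivity
  · have h1 := pi_err x W c hx2
    have hxr : (2:ℝ) ≤ x := by exact_mod_cast hx2
    have hxY : (x:ℝ) ≤ 2 * Y := by exact_mod_cast hx
    have hlogx : 0 < Real.log x := Real.log_pos (by linarith)
    have h2Y : Real.log ((2 * Y : ℕ) : ℝ) = Real.log 2 + L := by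
      push_cast
      rw [Real.log_mul (by norm_num) (by linarith)]
    have hl2 : 0 < Real.log 2 := Real.log_pos (by norm_num)
    have hlogY2 : L ≤ Real.log ((2 * Y : ℕ) : ℝ) := by rw [h2Y]; linarith
    have hlogY3 : Real.log ((2 * Y : ℕ) : ℝ) ≤ 2 * L := by
      rw [h2Y]; have := Real.log_two_lt_d9; linarith
    set E := 2 * (2 * Y / L ^ (A + 1)) with hE
    have hEψ : ∀ m : ℕ, m ≤ 2 * Y → |Eψ m W c| ≤ E := by
      intro m hm
      have g1 := h0 (2 * Y) (by omega) W hW (by rw [pow_one]; linarith) c m hm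
      have g2 := h0 (2 * Y) (by omega) 1 le_rfl (by rw [pow_one]; push_cast at hlogY2 ⊢; linarith) 0 m hm
      rw [if_pos hc] at g1
      rw [if_pos (by simp)] at g2
      simp only [Nat.totient_one, Nat.cast_one, div_one] at g2
      have hf : (Icc 1 m).filter (fun n => n ≡ 0 [MOD 1]) = Icc 1 m := by
        apply filter_true_of_mem
        intro n _
        exact Nat.modEq_one
      rw [hf] at g2
      have hden : ((2 * Y : ℕ) : ℝ) / Real.log ((2 * Y : ℕ) : ℝ) ^ (A + 1) ≤ 2 * Y / L ^ (A + 1) := by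
        push_cast
        apply div_le_div_of_nonneg_left (by positivity) (by positivity)
        apply pow_le_pow_left₀ hL0.le
        have := hlogY2
        push_cast at this
        exact this
      have g3 : Eψ m W c = (∑ n ∈ (Icc 1 m).filter (fun n => n ≡ c [MOD W]), ArithmeticFunction.vonMangoldt n -
          (m : ℝ) / (Nat.totient W : ℝ)) - (∑ n ∈ Icc 1 m, ArithmeticFunction.vonMangoldt n - m) /
            (Nat.totient W : ℝ) := by
        unfold Eψ psiAP psi1
        rw [Nat.floor_natCast]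
        ring
      rw [g3]
      refine (abs_sub _ _).trans ?_
      have g4 : |(∑ n ∈ Icc 1 m, ArithmeticFunction.vonMangoldt n - m) / (Nat.totient W : ℝ)| ≤
          2 * Y / L ^ (A + 1) := by
        rw [abs_div, abs_of_pos (show (0:ℝ) < (Nat.totient W : ℝ) by linarith)]
        refine (div_le_self (abs_nonneg _) hφ).trans (g2.trans hden)
      rw [hE]
      linarith [g1.trans hden]
    have hE0 : 0 ≤ E := by positivity
    have s1 : ∑ n ∈ Ico 2 x, wA n * |Eψ n W c| ≤ (1 / Real.log 2 - 1 / Real.log x) * E := by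
      rw [← sum_wA x hx2, sum_mul]
      refine sum_le_sum fun n hn => ?_
      rw [mem_Ico] at hn
      exact mul_le_mul_of_nonneg_left (hEψ n (by omega)) (wA_nonneg hn.1)
    have s2 : |Eψ x W c| / Real.log x ≤ 1 / Real.log x * E := by
      rw [div_mul_eq_mul_div, one_mul]
      exact div_le_div_of_nonneg_right (hEψ x hx) hlogx.le
    have s3 : NPa x W c ≤ NP x := by
      unfold NPa NP
      apply sum_le_sum_of_subset_of_nonneg
      · intro m hm
        rw [mem_filter] at hm ⊢
        exact ⟨hm.1, hm.2.1⟩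
      · intro m _ _
        exact div_nonneg ArithmeticFunction.vonMangoldt_nonneg (Real.log_natCast_nonneg m)
    have s4 : NP x / (Nat.totient W : ℝ) ≤ NP x := div_le_self (NP_nonneg x) hφ
    have s5 := NP_le x (by omega)
    have s6 : √(x : ℝ) * Real.log x ≤ 4 * (√(Y : ℝ) * L) := by
      have t1 : √(x : ℝ) ≤ 2 * √(Y : ℝ) := by
        rw [show (2:ℝ) * √(Y : ℝ) = √(4 * Y) by
          rw [Real.sqrt_mul (by norm_num), show (4:ℝ) = 2 ^ 2 by norm_num, Real.sqrt_sq (by norm_num)]]
        exact Real.sqrt_le_sqrt (by linarith)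
      have t2 : Real.log x ≤ 2 * L := by
        refine le_trans ?_ hlogY3
        apply Real.log_le_log (by linarith)
        exact_mod_cast hx
      calc √(x : ℝ) * Real.log x ≤ (2 * √(Y : ℝ)) * (2 * L) := by gcongr
        _ = _ := by ring
    have hlog2 : 1 / Real.log 2 ≤ 3 / 2 := by
      rw [div_le_iff₀ hl2]
      have := Real.log_two_gt_d9
      linarith
    have s7 : |piAP x W c - pi1 x / (Nat.totient W : ℝ)| ≤ 3 / 2 * E + 24 * (√(Y : ℝ) * L) := by
      have t3 : 1 / Real.log 2 * E ≤ 3 / 2 * E := mul_le_mul_of_nonneg_right hlog2 hE0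
      have t4 : 1 / Real.log x * E + (1 / Real.log 2 - 1 / Real.log x) * E = 1 / Real.log 2 * E := by ring
      linarith
    refine s7.trans ?_
    have hLA : (0:ℝ) < L ^ A := by positivity
    have u1 : 3 / 2 * E ≤ (1 / 2) * (Y / L ^ A) := by
      rw [hE, pow_succ]
      have : 3 / 2 * (2 * (2 * Y / (L ^ A * L))) = 6 / L * (Y / L ^ A) := by
        field_simp; ring
      rw [this]
      apply mul_le_mul_of_nonneg_right _ (by positivity)
      rw [div_le_iff₀ hL0]
      linarith
    have u2 : 24 * (√(Y : ℝ) * L) ≤ (1 / 2) * (Y / L ^ A) := by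
      rw [mul_div_assoc', le_div_iff₀ hLA]
      have : 24 * (√(Y : ℝ) * L) * L ^ A = 24 * (√(Y : ℝ) * L ^ (A + 1)) := by ring
      rw [this]
      linarith
    linarith

theorem piAP_diff (n Y W : ℕ) [NeZero W] (t : ZMod W) :
    (((Icc 1 Y).filter (fun s : ℕ => (s : ZMod W) = t ∧ (n + s).Prime)).card : ℝ) =
      piAP (n + Y) W (n + t.val) - piAP n W (n + t.val) := by
  induction Y with
  | zero => simp
  | succ Y ih =>
    have h1 : Icc 1 (Y + 1) = insert (Y + 1) (Icc 1 Y) := by
      ext i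
      simp only [mem_Icc, mem_insert]
      omega
    have h2 : piAP (n + (Y + 1)) W (n + t.val) = piAP (n + Y) W (n + t.val) +
        (if ((Y + 1 : ℕ) : ZMod W) = t ∧ (n + (Y + 1)).Prime then 1 else 0) := by
      have h3 : Icc 1 (n + (Y + 1)) = insert (n + (Y + 1)) (Icc 1 (n + Y)) := by
        ext i
        simp only [mem_Icc, mem_insert]
        omega
      have h4 : (n + (Y + 1)) ≡ n + t.val [MOD W] ↔ ((Y + 1 : ℕ) : ZMod W) = t := by
        rw [← ZMod.natCast_eq_natCast_iff, Nat.cast_add n (Y + 1), Nat.cast_add n t.val, ZMod.natCast_zmod_val,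
          add_right_inj]
      unfold piAP
      rw [h3, filter_insert]
      by_cases h5 : ((Y + 1 : ℕ) : ZMod W) = t ∧ (n + (Y + 1)).Prime
      · rw [if_pos h5, if_pos ⟨h5.2, h4.2 h5.1⟩, card_insert_of_notMem (by simp)]
        push_cast
        ring
      · rw [if_neg h5, if_neg (fun h => h5 ⟨h4.1 h.2, h.1⟩), add_zero]
    rw [h2, h1, filter_insert]
    split_ifs with h
    · rw [card_insert_of_notMem (by simp)]
      push_cast
      rw [ih]
      ring
    · rw [ih]
      ring

theorem pi1_diff (n Y : ℕ) :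
    (((Icc 1 Y).filter (fun a => (n + a).Prime)).card : ℝ) = pi1 (n + Y) - pi1 n := by
  induction Y with
  | zero => simp
  | succ Y ih =>
    have h1 : Icc 1 (Y + 1) = insert (Y + 1) (Icc 1 Y) := by
      ext i
      simp only [mem_Icc, mem_insert]
      omega
    have h2 : pi1 (n + (Y + 1)) = pi1 (n + Y) + (if (n + (Y + 1)).Prime then 1 else 0) := by
      have h3 : Icc 1 (n + (Y + 1)) = insert (n + (Y + 1)) (Icc 1 (n + Y)) := by
        ext i
        simp only [mem_Icc, mem_insert]
        omega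
      unfold pi1
      rw [h3, filter_insert]
      split_ifs
      · rw [card_insert_of_notMem (by simp)]
        push_cast
        ring
      · rw [add_zero]
    rw [h2, h1, filter_insert]
    split_ifs with h
    · rw [card_insert_of_notMem (by simp)]
      push_cast
      rw [ih]
      ring
    · rw [ih]
      ring

/-- the number of the elements of a class -/
theorem class_card (Y W : ℕ) [NeZero W] (t : ZMod W) :
    |(((Icc 1 Y).filter (fun s : ℕ => (s : ZMod W) = t)).card : ℝ) * W - Y| ≤ W := by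
  have hW : 0 < W := Nat.pos_of_ne_zero (NeZero.ne W)
  have h1 : (Icc 1 Y).filter (fun s : ℕ => (s : ZMod W) = t) = (Ioc 0 Y).filter (fun s => s ≡ t.val [MOD W]) := by
    ext s
    simp only [mem_filter, mem_Icc, mem_Ioc]
    have h4 : s ≡ t.val [MOD W] ↔ (s : ZMod W) = t := by
      rw [← ZMod.natCast_eq_natCast_iff, ZMod.natCast_zmod_val]
    rw [h4]
    constructor
    · rintro ⟨⟨a, b⟩, c⟩
      exact ⟨⟨by omega, b⟩, c⟩
    · rintro ⟨⟨a, b⟩, c⟩
      exact ⟨⟨by omega, b⟩, c⟩
  rw [h1]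
  have h2 := Nat.Ioc_filter_modEq_card 0 Y hW t.val
  set M := ((Ioc 0 Y).filter (fun s => s ≡ t.val [MOD W])).card with hM
  have hWr : (0:ℝ) < W := by exact_mod_cast hW
  have h3 : (M : ℤ) = max (⌊((Y:ℚ) - t.val) / W⌋ - ⌊((0:ℕ) - (t.val:ℚ)) / W⌋) 0 := by
    exact_mod_cast h2
  have hv : t.val < W := ZMod.val_lt t
  have hvq : (t.val : ℚ) < W := by exact_mod_cast hv
  have hWq : (0:ℚ) < W := by exact_mod_cast hW
  have hv0 : (0:ℚ) ≤ t.val := Nat.cast_nonneg _
  set a := ⌊((Y:ℚ) - t.val) / W⌋ with ha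
  set b := ⌊((0:ℕ) - (t.val:ℚ)) / W⌋ with hb
  have a1 : (a:ℚ) ≤ ((Y:ℚ) - t.val) / W := Int.floor_le _
  have a2 : ((Y:ℚ) - t.val) / W < a + 1 := Int.lt_floor_add_one _
  have b1 : (b:ℚ) ≤ (((0:ℕ):ℚ) - t.val) / W := Int.floor_le _
  have b2 : (((0:ℕ):ℚ) - t.val) / W < b + 1 := Int.lt_floor_add_one _
  rw [le_div_iff₀ hWq] at a1 b1
  rw [div_lt_iff₀ hWq] at a2 b2
  have hYq : (0:ℚ) ≤ Y := Nat.cast_nonneg _
  have hab : b ≤ a := by
    apply Int.floor_le_floor
    apply div_le_div_of_nonneg_right _ hWq.le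
    push_cast
    linarith
  rw [max_eq_left (by omega)] at h3
  have h3q : (M : ℚ) = a - b := by exact_mod_cast h3
  have c1 : (M : ℚ) * W - Y ≤ W := by
    rw [h3q]; push_cast at b2; nlinarith
  have c2 : -(W : ℚ) ≤ (M : ℚ) * W - Y := by
    rw [h3q]; push_cast at b1; nlinarith
  rw [abs_le]
  constructor
  · exact_mod_cast c2
  · exact_mod_cast c1

theorem cls : S_Cl := by
  intro W A _
  have hW : 0 < W := Nat.pos_of_ne_zero (NeZero.ne W)
  have hWr : (1:ℝ) ≤ W := by exact_mod_cast hW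
  obtain ⟨Y1, h1⟩ := pi_small W (A + 1) hW
  have ht : Tendsto (fun Y : ℕ => Real.log (Y : ℝ)) atTop atTop :=
    Real.tendsto_log_atTop.comp tendsto_natCast_atTop_atTop
  have e1 := ht.eventually_ge_atTop (16 * W : ℝ)
  have e2 : ∀ᶠ Y : ℕ in atTop, (8 * (W:ℝ) ^ 2) * Real.log Y ^ A ≤ Y := by
    have hl : (fun x : ℝ => Real.log x ^ A) =o[atTop] fun x : ℝ => x := by
      have := isLittleO_log_rpow_rpow_atTop (A : ℝ) (s := 1) (by norm_num)
      refine this.congr' ?_ ?_
      · filter_upwards [eventually_ge_atTop (1:ℝ)] with x hx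
        rw [Real.rpow_natCast]
      · filter_upwards with x
        rw [Real.rpow_one]
    have h := hl.bound (show (0:ℝ) < 1 / (8 * (W:ℝ) ^ 2) by positivity)
    have h' := tendsto_natCast_atTop_atTop.eventually h
    filter_upwards [h', eventually_ge_atTop 1] with Y hY hY1
    have hY1' : (1:ℝ) ≤ Y := by exact_mod_cast hY1
    rw [Real.norm_of_nonneg (pow_nonneg (Real.log_nonneg hY1') _), Real.norm_of_nonneg (by positivity)] at hY
    rw [div_mul_eq_mul_div, one_mul, le_div_iff₀ (by positivity)] at hY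
    linarith
  obtain ⟨Y2, hY2⟩ := eventually_atTop.1 (e1.and e2)
  refine ⟨max (max Y1 Y2) (2 * W), fun Y hY n hn hnY t => ?_⟩
  have hYY1 : Y1 ≤ Y := (le_max_left _ _).trans ((le_max_left _ _).trans hY)
  obtain ⟨hL, hbig⟩ := hY2 Y ((le_max_right _ _).trans ((le_max_left _ _).trans hY))
  have hYW : 2 * W ≤ Y := (le_max_right _ _).trans hY
  have hYWr : 2 * (W:ℝ) ≤ Y := by exact_mod_cast hYW
  have hYp : (0:ℝ) < Y := by linarith
  set L := Real.log Y with hLdef
  have hL0 : 0 < L := by linarith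
  have hLA : (0:ℝ) < L ^ A := by positivity
  have hM := class_card Y W t
  set M : ℝ := (((Icc 1 Y).filter (fun s : ℕ => (s : ZMod W) = t)).card : ℝ) with hMdef
  rw [abs_le] at hM
  have hM2 : (Y : ℝ) / 2 ≤ M * W := by linarith [hM.1]
  have hMp : 0 < M := by
    by_contra hneg
    push Not at hneg
    have : M * W ≤ 0 := mul_nonpos_of_nonpos_of_nonneg hneg (by linarith)
    linarith
  have hinv : 1 / M ≤ 2 * W / Y := by
    rw [div_le_div_iff₀ hMp hYp]
    linarith
  have hdn : dn Y W t (fun s => (n + s).Prime) = (piAP (n + Y) W (n + t.val) - piAP n W (n + t.val)) / M := by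
    unfold dn
    rw [← piAP_diff n Y W t, hMdef]
    congr!
  have hcast : ((n + t.val : ℕ) : ZMod W) = (n : ZMod W) + t := by
    rw [Nat.cast_add, ZMod.natCast_zmod_val]
  have hun : IsUnit ((n : ZMod W) + t) ↔ (n + t.val).Coprime W := by
    rw [← hcast, ZMod.isUnit_iff_coprime]
  have hφ : (1:ℝ) ≤ Nat.totient W := by exact_mod_cast Nat.totient_pos.2 hW
  have hth0 : 0 ≤ th Y n := by unfold th; positivity
  have hth1 : th Y n ≤ 1 := by
    unfold th
    rw [div_le_one hYp]
    have : ((Icc 1 Y).filter (fun s => (n + s).Prime)).card ≤ (Icc 1 Y).card := card_filter_le _ _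
    rw [Nat.card_Icc] at this
    exact_mod_cast (by omega : ((Icc 1 Y).filter (fun s => (n + s).Prime)).card ≤ Y)
  rw [hdn]
  by_cases hc : (n + t.val).Coprime W
  · have hu : un ((n : ZMod W) + t) = 1 := by
      unfold un
      rw [if_pos (hun.2 hc)]
    rw [hu, mul_one]
    have g1 := h1 Y hYY1 (n + Y) (by omega) (n + t.val) hc
    have g2 := h1 Y hYY1 n (by omega) (n + t.val) hc
    have g3 : th Y n * Y = pi1 (n + Y) - pi1 n := by
      unfold th
      rw [div_mul_cancel₀ _ hYp.ne', pi1_diff]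
    set P := piAP (n + Y) W (n + t.val) - piAP n W (n + t.val) with hP
    have g4 : |P - th Y n * Y / (Nat.totient W : ℝ)| ≤ 2 * (Y / L ^ (A + 1)) := by
      rw [g3, hP]
      have : piAP (n + Y) W (n + t.val) - piAP n W (n + t.val) - (pi1 (n + Y) - pi1 n) / (Nat.totient W : ℝ) =
          (piAP (n + Y) W (n + t.val) - pi1 (n + Y) / (Nat.totient W : ℝ)) -
          (piAP n W (n + t.val) - pi1 n / (Nat.totient W : ℝ)) := by ring
      rw [this]
      refine (abs_sub _ _).trans ?_
      linarith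
    have g5 : P / M - th Y n * bta W = (P - th Y n * Y / (Nat.totient W : ℝ)) * (1 / M) -
        th Y n / (Nat.totient W : ℝ) * ((M * W - Y) * (1 / M)) := by
      unfold bta
      field_simp
      ring
    rw [g5]
    refine (abs_sub _ _).trans ?_
    have g6 : |(P - th Y n * Y / (Nat.totient W : ℝ)) * (1 / M)| ≤ 1 / 2 * (1 / L ^ A) := by
      rw [abs_mul, abs_of_pos (show (0:ℝ) < 1 / M by positivity)]
      calc |P - th Y n * Y / (Nat.totient W : ℝ)| * (1 / M) ≤ (2 * (Y / L ^ (A + 1))) * (2 * W / Y) := by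
            apply mul_le_mul g4 hinv (by positivity) (by positivity)
        _ = 4 * W / L * (1 / L ^ A) := by
            rw [pow_succ]
            field_simp
            ring
        _ ≤ 1 / 2 * (1 / L ^ A) := by
            apply mul_le_mul_of_nonneg_right _ (by positivity)
            rw [div_le_iff₀ hL0]
            linarith
    have g7 : |th Y n / (Nat.totient W : ℝ) * ((M * W - Y) * (1 / M))| ≤ 1 / 2 * (1 / L ^ A) := by
      have a1 : |th Y n / (Nat.totient W : ℝ)| ≤ 1 := by
        rw [abs_of_nonneg (by positivity), div_le_one (by linarith)]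
        linarith
      have a2 : |M * W - Y| ≤ W := abs_le.2 hM
      rw [abs_mul, abs_mul, abs_of_pos (show (0:ℝ) < 1 / M by positivity)]
      calc |th Y n / (Nat.totient W : ℝ)| * (|M * W - Y| * (1 / M)) ≤ 1 * (W * (2 * W / Y)) := by
            gcongr
        _ ≤ 1 / 2 * (1 / L ^ A) := by
            rw [one_mul, mul_div_assoc', div_le_iff₀ hYp, mul_comm (1 / 2 * (1 / L ^ A)) (Y : ℝ)]
            rw [show (Y:ℝ) * (1 / 2 * (1 / L ^ A)) = (Y / 2) / L ^ A by ring, le_div_iff₀ hLA]
            nlinarith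
    have : 1 / L ^ A = 1 / 2 * (1 / L ^ A) + 1 / 2 * (1 / L ^ A) := by ring
    rw [this]
    linarith
  · have hu : un ((n : ZMod W) + t) = 0 := by
      unfold un
      rw [if_neg (fun h => hc (hun.1 h))]
    rw [hu, mul_zero, sub_zero, ← piAP_diff n Y W t]
    have hcard : ((Icc 1 Y).filter (fun s : ℕ => (s : ZMod W) = t ∧ (n + s).Prime)).card ≤ W := by
      have hinj : ((Icc 1 Y).filter (fun s : ℕ => (s : ZMod W) = t ∧ (n + s).Prime)).card ≤ (Icc 1 W).card := by
        apply card_le_card_of_injOn (fun s => n + s)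
        · intro s hs
          rw [mem_coe, mem_filter, mem_Icc] at hs
          rw [mem_coe, mem_Icc]
          have hp := hs.2.2
          have hcop : ¬ (n + s).Coprime W := by
            intro hcop
            apply hc
            rw [← ZMod.isUnit_iff_coprime, hcast, ← hs.2.1, ← Nat.cast_add, ZMod.isUnit_iff_coprime]
            exact hcop
          have hdvd : (n + s) ∣ W := by
            by_contra h
            exact hcop ((Nat.Prime.coprime_iff_not_dvd hp).2 h)
          refine ⟨?_, Nat.le_of_dvd hW hdvd⟩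
          show 1 ≤ n + s
          omega
        · intro a _ b _ hab
          simpa using hab
      rw [Nat.card_Icc] at hinj
      omega
    have hcr : (((Icc 1 Y).filter (fun s : ℕ => (s : ZMod W) = t ∧ (n + s).Prime)).card : ℝ) ≤ W := by
      exact_mod_cast hcard
    rw [abs_of_nonneg (by positivity), div_eq_mul_one_div]
    calc (((Icc 1 Y).filter (fun s : ℕ => (s : ZMod W) = t ∧ (n + s).Prime)).card : ℝ) * (1 / M) ≤
          W * (2 * W / Y) := by gcongr
      _ ≤ 1 / L ^ A := by
          rw [mul_div_assoc', div_le_iff₀ hYp, div_mul_eq_mul_div, one_mul, le_div_iff₀ hLA]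
          nlinarith

end Pool.Agent.Q178.GC
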