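import Pool.Agent.H442R2.EHI.PntErr
import Pool.Agent.Q145.GC.Spec

set_option autoImplicit false

/-! # Project GC: the density of the primes in `(n, n + Y]` with second order term -/

namespace Pool.Agent.Q178.GC

open Finset Filter
open Pool.Agent.H442R2.EHI (lis)
open Pool.Agent.H442R2.EHI.PntErrAux (pc pc_succ lis_succ)
open Pool.Agent.Q145.GC

theorem count_eq (n Y : ℕ) : (((Icc 1 Y).filter (fun a => (n + a).Prime)).card : ℝ) = pc (n + Y) - pc n := by
  induction Y with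
  | zero => simp
  | succ Y ih =>
    have h1 : Icc 1 (Y + 1) = insert (Y + 1) (Icc 1 Y) := by
      ext i
      simp only [mem_Icc, mem_insert]
      omega
    rw [h1, filter_insert, ← add_assoc, pc_succ]
    split_ifs with h
    · rw [card_insert_of_notMem (by simp)]
      push_cast
      rw [ih]
      ring
    · rw [ih]
      ring

theorem sum_Ioc_succ (f : ℕ → ℝ) (n Y : ℕ) :
    ∑ m ∈ Ioc n (n + (Y + 1)), f m = ∑ m ∈ Ioc n (n + Y), f m + f (n + Y + 1) := by
  have h1 : Ioc n (n + (Y + 1)) = insert (n + Y + 1) (Ioc n (n + Y)) := by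
    ext i
    simp only [mem_Ioc, mem_insert]
    omega
  rw [h1, sum_insert (by simp)]
  ring

theorem lis_eq (n Y : ℕ) (hn : 1 ≤ n) : lis (n + Y) - lis n = ∑ m ∈ Ioc n (n + Y), 1 / Real.log m := by
  induction Y with
  | zero => simp
  | succ Y ih =>
    rw [sum_Ioc_succ, ← ih, ← add_assoc, lis_succ (n + Y) (by omega)]
    ring

/-- growth -/
theorem growth3 (C : ℝ) : ∀ᶠ Y : ℕ in atTop, 3 ≤ Real.log Y ∧ C * √(Y : ℝ) ≤ Y / Real.log Y ^ 3 ∧ 4 ≤ Y := by
  have hl : Tendsto (fun Y : ℕ => Real.log Y) atTop atTop :=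
    Real.tendsto_log_atTop.comp tendsto_natCast_atTop_atTop
  have a2 : ∀ᶠ X : ℕ in atTop, C * √(X : ℝ) ≤ X / Real.log X ^ 3 := by
    have h1 : (fun x : ℝ => Real.log x ^ (3 : ℝ)) =o[atTop] (fun x : ℝ => x ^ (1 / 2 : ℝ)) :=
      isLittleO_log_rpow_rpow_atTop 3 (by norm_num)
    have h2 := (h1.bound (show (0 : ℝ) < 1 / (|C| + 1) by positivity))
    filter_upwards [(tendsto_natCast_atTop_atTop (R := ℝ)).eventually h2, hl.eventually_ge_atTop 1,
      eventually_ge_atTop 4] with X h3 h4 h5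
    have hX : (0 : ℝ) < X := by exact_mod_cast (by omega : 0 < X)
    have hs : 0 < √(X : ℝ) := Real.sqrt_pos.2 hX
    have e1 : ‖Real.log (X : ℝ) ^ (3 : ℝ)‖ = Real.log X ^ 3 := by
      rw [show (3:ℝ) = ((3:ℕ):ℝ) by norm_num, Real.rpow_natCast, Real.norm_eq_abs, abs_of_nonneg (by positivity)]
    have e2 : ‖(X : ℝ) ^ (1 / 2 : ℝ)‖ = √(X : ℝ) := by
      rw [← Real.sqrt_eq_rpow, Real.norm_eq_abs, abs_of_nonneg hs.le]
    rw [e1, e2] at h3
    rw [le_div_iff₀ (by positivity)]
    have h6 : (|C| + 1) * Real.log X ^ 3 ≤ √(X : ℝ) := by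
      calc (|C| + 1) * Real.log X ^ 3 ≤ (|C| + 1) * (1 / (|C| + 1) * √(X : ℝ)) :=
            mul_le_mul_of_nonneg_left h3 (by positivity)
        _ = √(X : ℝ) := by field_simp
    have h7 : √(X : ℝ) * √(X : ℝ) = X := Real.mul_self_sqrt hX.le
    have h8 : C * Real.log X ^ 3 ≤ (|C| + 1) * Real.log X ^ 3 :=
      mul_le_mul_of_nonneg_right ((le_abs_self C).trans (by linarith)) (by positivity)
    calc C * √(X : ℝ) * Real.log X ^ 3 = (C * Real.log X ^ 3) * √(X : ℝ) := by ring
      _ ≤ √(X : ℝ) * √(X : ℝ) := mul_le_mul_of_nonneg_right (h8.trans h6) hs.le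
      _ = X := h7
  filter_upwards [hl.eventually_ge_atTop 3, a2, eventually_ge_atTop 4] with X h1 h4 h5
  exact ⟨h1, h4, h5⟩

theorem pc_err3 : ∃ C : ℝ, 0 < C ∧ ∀ Y n : ℕ, 1 ≤ n → n ≤ Y → 4 ≤ Y →
    |(pc (n + Y) - pc n) - (lis (n + Y) - lis n)| ≤ C * (Y / Real.log Y ^ 3) + 4 * √(Y : ℝ) := by
  obtain ⟨C, h⟩ := Pool.Agent.H442R2.EHI.pnt_err 3
  refine ⟨10 * |C| + 1, by positivity, fun Y n hn hnY hY => ?_⟩
  have hYr : (4 : ℝ) ≤ Y := by exact_mod_cast hY
  have hY0 : (0 : ℝ) < Y := by linarith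
  have hl : 0 < Real.log Y := Real.log_pos (by linarith)
  have h1 : |pc (n + Y) - lis (n + Y)| ≤ 2 * |C| * (Y / Real.log Y ^ 3) := by
    have h2 := h (n + Y) (by omega)
    have h3 : Real.log Y ≤ Real.log ((n + Y : ℕ) : ℝ) := Real.log_le_log hY0 (by push_cast; linarith [Nat.cast_nonneg (α := ℝ) n])
    refine h2.trans ?_
    have h4 : ((n + Y : ℕ) : ℝ) ≤ 2 * Y := by
      have : (n : ℝ) ≤ Y := by exact_mod_cast hnY
      push_cast
      linarith
    calc C * ((n + Y : ℕ) : ℝ) / Real.log ((n + Y : ℕ) : ℝ) ^ 3 ≤ |C| * (2 * Y) / Real.log Y ^ 3 := by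
          apply div_le_div₀ (by positivity) _ (by positivity) (pow_le_pow_left₀ hl.le h3 3)
          exact mul_le_mul (le_abs_self C) h4 (Nat.cast_nonneg _) (abs_nonneg _)
      _ = _ := by ring
  have h5 : |pc n - lis n| ≤ 8 * |C| * (Y / Real.log Y ^ 3) + 4 * √(Y : ℝ) := by
    have hsq : 0 < √(Y : ℝ) := Real.sqrt_pos.2 hY0
    rcases le_or_gt (n : ℝ) (√(Y : ℝ)) with hns | hns
    · -- small `n`
      have h6 : |pc n| ≤ n := by
        unfold pc
        rw [Nat.abs_cast]
        have := card_le_card (filter_subset (fun p : ℕ => p.Prime) (Icc 1 n))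
        rw [Nat.card_Icc, Nat.add_sub_cancel] at this
        exact_mod_cast this
      have h7 : |lis n| ≤ 3 * n := by
        unfold lis
        refine (abs_sum_le_sum_abs _ _).trans ?_
        calc ∑ i ∈ Icc 2 n, |1 / Real.log (i : ℝ)| ≤ ∑ i ∈ Icc 2 n, (3 : ℝ) := by
              apply sum_le_sum
              intro i hi
              have hi2 : 2 ≤ i := (mem_Icc.1 hi).1
              have h8 : Real.log 2 ≤ Real.log i := Real.log_le_log (by norm_num) (by exact_mod_cast hi2)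
              have h9 : (0.6 : ℝ) ≤ Real.log 2 := by
                have := Real.log_two_gt_d9
                linarith
              rw [abs_of_nonneg (by apply div_nonneg zero_le_one; linarith), div_le_iff₀ (by linarith)]
              linarith
          _ ≤ 3 * n := by
              rw [sum_const, nsmul_eq_mul, Nat.card_Icc]
              have : ((n + 1 - 2 : ℕ) : ℝ) ≤ n := by exact_mod_cast (by omega : n + 1 - 2 ≤ n)
              linarith
      have h8 : |pc n - lis n| ≤ n + 3 * n := (abs_sub _ _).trans (add_le_add h6 h7)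
      have h9 : 0 ≤ 8 * |C| * (Y / Real.log Y ^ 3) := by positivity
      linarith
    · have hn2 : 2 ≤ n := by
        have h6 : (2 : ℝ) ≤ √(Y : ℝ) := by
          rw [show (2 : ℝ) = √4 by
            rw [show (4 : ℝ) = 2 ^ 2 by norm_num, Real.sqrt_sq (by norm_num)]]
          exact Real.sqrt_le_sqrt hYr
        have h7 : (2 : ℝ) < n := by linarith
        exact_mod_cast h7.le
      have h2 := h n hn2
      have h3 : Real.log Y / 2 ≤ Real.log n := by
        rw [← Real.log_sqrt hY0.le]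
        exact Real.log_le_log hsq hns.le
      refine h2.trans ?_
      have h4 : (n : ℝ) ≤ Y := by exact_mod_cast hnY
      have h6 : C * (n : ℝ) / Real.log (n : ℝ) ^ 3 ≤ |C| * Y / (Real.log Y / 2) ^ 3 := by
        apply div_le_div₀ (by positivity) _ (by positivity) (pow_le_pow_left₀ (by positivity) h3 3)
        exact mul_le_mul (le_abs_self C) h4 (Nat.cast_nonneg _) (abs_nonneg _)
      have h7 : |C| * Y / (Real.log Y / 2) ^ 3 = 8 * |C| * (Y / Real.log Y ^ 3) := by
        field_simp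
        ring
      have h8 : 0 ≤ 4 * √(Y : ℝ) := by positivity
      linarith
  have h9 : (pc (n + Y) - pc n) - (lis (n + Y) - lis n) = (pc (n + Y) - lis (n + Y)) - (pc n - lis n) := by ring
  rw [h9]
  have h10 : 0 ≤ (Y : ℝ) / Real.log Y ^ 3 := by positivity
  refine (abs_sub _ _).trans ?_
  nlinarith

/-- `(x + 1) log (x + 1) - x log x` -/
noncomputable def psi0 (x : ℝ) : ℝ := (x + 1) * Real.log (x + 1) - x * Real.log x

theorem sum_inv_sqrt (N : ℕ) : ∑ m ∈ Icc 1 N, 1 / √(m : ℝ) ≤ 2 * √(N : ℝ) := by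
  induction N with
  | zero => simp
  | succ N ih =>
    rw [sum_Icc_succ_top (by omega)]
    have h1 : (0:ℝ) < √((N + 1 : ℕ) : ℝ) := Real.sqrt_pos.2 (by positivity)
    have h2 : √(N : ℝ) ≤ √((N + 1 : ℕ) : ℝ) := Real.sqrt_le_sqrt (by push_cast; linarith)
    have h3 : √((N + 1 : ℕ) : ℝ) * √((N + 1 : ℕ) : ℝ) = N + 1 := by
      rw [Real.mul_self_sqrt (by positivity)]; push_cast; ring
    have h4 : √(N : ℝ) * √(N : ℝ) = N := Real.mul_self_sqrt (Nat.cast_nonneg N)
    have h5 : 1 / √((N + 1 : ℕ) : ℝ) ≤ 2 * (√((N + 1 : ℕ) : ℝ) - √(N : ℝ)) := by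
      rw [div_le_iff₀ h1]
      nlinarith [Real.sqrt_nonneg (N : ℝ), sq_nonneg (√((N + 1 : ℕ) : ℝ) - √(N : ℝ))]
    linarith

/-- `log² (Y / m)` on average -/
theorem sum_log_sq {Y n : ℕ} (hY : 1 ≤ Y) (hn : n ≤ Y) :
    ∑ m ∈ Ioc n (n + Y), (Real.log m - Real.log Y) ^ 2 ≤ 33 * Y := by
  have hY0 : (0:ℝ) < Y := by exact_mod_cast hY
  have h1 : ∀ m ∈ Icc 1 (2 * Y), (Real.log m - Real.log Y) ^ 2 ≤
      (if m ≤ Y then 16 * √(Y : ℝ) * (1 / √(m : ℝ)) else 1) := by
    intro m hm
    rw [mem_Icc] at hm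
    have hm0 : (0:ℝ) < m := by exact_mod_cast hm.1
    split_ifs with h
    · have h2 : 0 ≤ Real.log Y - Real.log m := by
        have := Real.log_le_log hm0 (by exact_mod_cast h : (m:ℝ) ≤ Y)
        linarith
      set a := √(√((Y : ℝ) / m)) with ha
      have ha0 : 0 < a := Real.sqrt_pos.2 (Real.sqrt_pos.2 (by positivity))
      have h3 : Real.log Y - Real.log m = 4 * Real.log a := by
        rw [ha, Real.log_sqrt (Real.sqrt_nonneg _), Real.log_sqrt (by positivity), Real.log_div hY0.ne' hm0.ne']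
        ring
      have h4 : Real.log a ≤ a := (Real.log_le_sub_one_of_pos ha0).trans (by linarith)
      have h5 : Real.log Y - Real.log m ≤ 4 * a := by rw [h3]; linarith
      have h6 : a ^ 2 = √((Y:ℝ) / m) := Real.sq_sqrt (Real.sqrt_nonneg _)
      calc (Real.log m - Real.log Y) ^ 2 = (Real.log Y - Real.log m) ^ 2 := by ring
        _ ≤ (4 * a) ^ 2 := pow_le_pow_left₀ h2 h5 2
        _ = 16 * √((Y:ℝ) / m) := by rw [mul_pow, h6]; norm_num
        _ = _ := by rw [Real.sqrt_div hY0.le]; ring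
    · push Not at h
      have h2 : 0 ≤ Real.log m - Real.log Y := by
        have := Real.log_le_log hY0 (by exact_mod_cast h.le : (Y:ℝ) ≤ m)
        linarith
      have h3 : Real.log m - Real.log Y ≤ Real.log 2 := by
        rw [← Real.log_div hm0.ne' hY0.ne']
        apply Real.log_le_log (by positivity)
        rw [div_le_iff₀ hY0]
        exact_mod_cast hm.2
      have h4 := Real.log_two_lt_d9
      nlinarith
  calc ∑ m ∈ Ioc n (n + Y), (Real.log m - Real.log Y) ^ 2 ≤ ∑ m ∈ Icc 1 (2 * Y), (Real.log m - Real.log Y) ^ 2 := by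
        apply sum_le_sum_of_subset_of_nonneg
        · intro m hm
          rw [mem_Ioc] at hm
          rw [mem_Icc]
          omega
        · intro m _ _; positivity
    _ ≤ ∑ m ∈ Icc 1 (2 * Y), (if m ≤ Y then 16 * √(Y : ℝ) * (1 / √(m : ℝ)) else 1) := sum_le_sum h1
    _ ≤ (∑ m ∈ Icc 1 Y, 16 * √(Y : ℝ) * (1 / √(m : ℝ))) + Y := by
        rw [← sum_filter_add_sum_filter_not _ (fun m => m ≤ Y)]
        apply add_le_add
        · have e : (Icc 1 (2 * Y)).filter (fun m => m ≤ Y) = Icc 1 Y := by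
            ext m
            simp only [mem_filter, mem_Icc]
            omega
          rw [e]
          refine le_of_eq (sum_congr rfl fun m hm => ?_)
          rw [if_pos (mem_Icc.1 hm).2]
        · calc ∑ m ∈ (Icc 1 (2 * Y)).filter (fun m => ¬ m ≤ Y), (if m ≤ Y then 16 * √(Y : ℝ) * (1 / √(m : ℝ)) else 1)
              = ∑ m ∈ (Icc 1 (2 * Y)).filter (fun m => ¬ m ≤ Y), (1:ℝ) := by
                refine sum_congr rfl fun m hm => ?_
                rw [if_neg (mem_filter.1 hm).2]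
            _ ≤ Y := by
                rw [sum_const, nsmul_eq_mul, mul_one]
                have : (Icc 1 (2 * Y)).filter (fun m => ¬ m ≤ Y) ⊆ Ioc Y (2 * Y) := by
                  intro m hm
                  rw [mem_filter, mem_Icc] at hm
                  rw [mem_Ioc]
                  omega
                have h2 := card_le_card this
                rw [Nat.card_Ioc] at h2
                exact_mod_cast h2.trans (by omega)
    _ ≤ 33 * Y := by
        rw [← mul_sum]
        have h2 := sum_inv_sqrt Y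
        have h3 : √(Y : ℝ) * √(Y : ℝ) = Y := Real.mul_self_sqrt hY0.le
        have h4 := mul_le_mul_of_nonneg_left h2 (by positivity : 0 ≤ 16 * √(Y : ℝ))
        nlinarith

/-- `∑ log m` -/
theorem sum_log {n Y : ℕ} (hn : 1 ≤ n) :
    (((n + Y : ℕ) : ℝ) * Real.log ((n + Y : ℕ) : ℝ) - (n + Y : ℕ)) - ((n : ℝ) * Real.log n - n) ≤
      ∑ m ∈ Ioc n (n + Y), Real.log m ∧
    ∑ m ∈ Ioc n (n + Y), Real.log m ≤
      (((n + Y : ℕ) : ℝ) * Real.log ((n + Y : ℕ) : ℝ) - (n + Y : ℕ)) - ((n : ℝ) * Real.log n - n) +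
        (Real.log ((n + Y : ℕ) : ℝ) - Real.log n) := by
  induction Y with
  | zero => simp
  | succ Y ih =>
    rw [sum_Ioc_succ]
    have hm : (0:ℝ) < ((n + Y : ℕ) : ℝ) := by exact_mod_cast (by omega : 0 < n + Y)
    have hm1 : (0:ℝ) < ((n + Y : ℕ) : ℝ) + 1 := by linarith
    have e1 : ((n + (Y + 1) : ℕ) : ℝ) = ((n + Y : ℕ) : ℝ) + 1 := by push_cast; ring
    have e2 : ((n + Y + 1 : ℕ) : ℝ) = ((n + Y : ℕ) : ℝ) + 1 := by push_cast; ring
    rw [e1, e2]
    set M := ((n + Y : ℕ) : ℝ) with hM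
    have h1 : Real.log (M + 1) - Real.log M ≤ 1 / M := by
      rw [← Real.log_div hm1.ne' hm.ne']
      have := Real.log_le_sub_one_of_pos (show 0 < (M + 1) / M by positivity)
      have e : (M + 1) / M - 1 = 1 / M := by field_simp; ring
      linarith
    have h2 : 1 / (M + 1) ≤ Real.log (M + 1) - Real.log M := by
      rw [← Real.log_div hm1.ne' hm.ne']
      have := Real.one_sub_inv_le_log_of_pos (show 0 < (M + 1) / M by positivity)
      have e : 1 - ((M + 1) / M)⁻¹ = 1 / (M + 1) := by field_simp; ring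
      linarith
    have h3 : M * (Real.log (M + 1) - Real.log M) ≤ 1 := by
      calc M * (Real.log (M + 1) - Real.log M) ≤ M * (1 / M) := by gcongr
        _ = 1 := by field_simp
    have h4 : 1 ≤ (M + 1) * (Real.log (M + 1) - Real.log M) := by
      calc 1 = (M + 1) * (1 / (M + 1)) := by field_simp
        _ ≤ _ := by gcongr
    constructor
    · nlinarith [ih.1]
    · nlinarith [ih.2]

/-- the second order asymptotic formula -/
theorem th_asym : ∃ (C : ℝ) (Y₀ : ℕ), 0 < C ∧ ∀ Y : ℕ, Y₀ ≤ Y → 3 ≤ Real.log Y ∧ 4 ≤ Y ∧ ∀ n : ℕ, 1 ≤ n → n ≤ Y →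
    |th Y n - (1 / Real.log Y + (1 - psi0 ((n : ℝ) / Y)) / Real.log Y ^ 2)| ≤ C / Real.log Y ^ 3 := by
  obtain ⟨C1, hC1, h1⟩ := pc_err3
  obtain ⟨Y0, hY0⟩ := eventually_atTop.1 (growth3 20)
  refine ⟨C1 + 100, Y0, by linarith, fun Y hY => ?_⟩
  obtain ⟨hL3, hg, hY4⟩ := hY0 Y hY
  refine ⟨hL3, hY4, fun n hn hnY => ?_⟩
  have hYr : (4 : ℝ) ≤ Y := by exact_mod_cast hY4
  have hYp : (0 : ℝ) < Y := by linarith
  set L := Real.log Y with hL
  have hL0 : 0 < L := by linarith
  have hn0 : (0:ℝ) < n := by exact_mod_cast hn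
  have hsq : 0 < √(Y : ℝ) := Real.sqrt_pos.2 hYp
  -- the counts
  have hth : th Y n * Y = pc (n + Y) - pc n := by
    unfold th
    rw [div_mul_cancel₀ _ hYp.ne', ← count_eq]
  have h2 := h1 Y n hn hnY hY4
  -- the sum of the 1 / log m
  have h3 : |∑ m ∈ Ioc n (n + Y), 1 / Real.log m - ∑ m ∈ Ioc n (n + Y), (1 / L - (Real.log m - L) / L ^ 2)| ≤
      2 / L ^ 3 * (33 * Y) + 4 * √(Y : ℝ) := by
    rw [← sum_sub_distrib]
    refine (abs_sum_le_sum_abs _ _).trans ?_
    have h4 : ∀ m ∈ Ioc n (n + Y), |1 / Real.log m - (1 / L - (Real.log m - L) / L ^ 2)| ≤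
        2 / L ^ 3 * (Real.log m - L) ^ 2 + (if (m : ℝ) < √(Y : ℝ) then 4 else 0) := by
      intro m hm
      rw [mem_Ioc] at hm
      have hm2 : (2:ℝ) ≤ m := by exact_mod_cast (by omega : 2 ≤ m)
      have hm0 : (0:ℝ) < m := by linarith
      have hlm : 0 < Real.log m := Real.log_pos (by linarith)
      have hlm2 : (1/2:ℝ) ≤ Real.log m := by
        have h5 : Real.log 2 ≤ Real.log m := Real.log_le_log (by norm_num) hm2
        have := Real.log_two_gt_d9
        linarith
      have e : 1 / Real.log m - (1 / L - (Real.log m - L) / L ^ 2) = (Real.log m - L) ^ 2 / (L ^ 2 * Real.log m) := by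
        field_simp
        ring
      split_ifs with h
      · -- small m
        have h6 : Real.log m ≤ L := by
          apply Real.log_le_log hm0
          have : √(Y : ℝ) ≤ Y := by
            have h7 : √(Y : ℝ) * √(Y : ℝ) = Y := Real.mul_self_sqrt hYp.le
            have h8 : (1:ℝ) ≤ √(Y : ℝ) := by
              rw [show (1:ℝ) = √1 by simp]
              exact Real.sqrt_le_sqrt (by linarith)
            nlinarith
          linarith
        rw [e, abs_of_nonneg (by positivity)]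
        have h9 : (Real.log m - L) ^ 2 / (L ^ 2 * Real.log m) ≤ 4 := by
          rw [div_le_iff₀ (by positivity)]
          have h10 : (Real.log m - L) ^ 2 ≤ L ^ 2 := by
            have : (Real.log m - L) ^ 2 = (L - Real.log m) ^ 2 := by ring
            rw [this]
            exact pow_le_pow_left₀ (by linarith) (by linarith) 2
          nlinarith [sq_nonneg L]
        have h11 : 0 ≤ 2 / L ^ 3 * (Real.log m - L) ^ 2 := by positivity
        linarith
      · push Not at h
        have h6 : L / 2 ≤ Real.log m := by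
          rw [hL, ← Real.log_sqrt hYp.le]
          exact Real.log_le_log hsq h
        rw [e, abs_of_nonneg (by positivity), add_zero]
        rw [div_le_iff₀ (by positivity)]
        have h7 : 2 / L ^ 3 * (Real.log m - L) ^ 2 * (L ^ 2 * (L / 2)) = (Real.log m - L) ^ 2 := by
          field_simp
        have h8 : 2 / L ^ 3 * (Real.log m - L) ^ 2 * (L ^ 2 * (L / 2)) ≤
            2 / L ^ 3 * (Real.log m - L) ^ 2 * (L ^ 2 * Real.log m) := by gcongr
        linarith
    refine (sum_le_sum h4).trans ?_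
    rw [sum_add_distrib, ← mul_sum]
    apply add_le_add
    · exact mul_le_mul_of_nonneg_left (sum_log_sq (by omega) hnY) (by positivity)
    · rw [← sum_filter, sum_const, nsmul_eq_mul]
      have h5 : (((Ioc n (n + Y)).filter (fun m : ℕ => (m : ℝ) < √(Y : ℝ))).card : ℝ) ≤ √(Y : ℝ) := by
        have h6 : (Ioc n (n + Y)).filter (fun m : ℕ => (m : ℝ) < √(Y : ℝ)) ⊆ Icc 1 ⌊√(Y : ℝ)⌋₊ := by
          intro m hm
          rw [mem_filter, mem_Ioc] at hm
          rw [mem_Icc]
          exact ⟨by omega, Nat.le_floor hm.2.le⟩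
        have h7 := card_le_card h6
        rw [Nat.card_Icc, Nat.add_sub_cancel] at h7
        calc (((Ioc n (n + Y)).filter (fun m : ℕ => (m : ℝ) < √(Y : ℝ))).card : ℝ) ≤ ⌊√(Y : ℝ)⌋₊ := by
              exact_mod_cast h7
          _ ≤ _ := Nat.floor_le hsq.le
      linarith
  -- the sum of the logarithms
  have h5 : ∑ m ∈ Ioc n (n + Y), (1 / L - (Real.log m - L) / L ^ 2) =
      Y / L - (∑ m ∈ Ioc n (n + Y), Real.log m - Y * L) / L ^ 2 := by
    have hc : ((Ioc n (n + Y)).card : ℝ) = Y := by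
      rw [Nat.card_Ioc]
      have : n + Y - n = Y := by omega
      rw [this]
    have e1 : ∑ m ∈ Ioc n (n + Y), (1 / L) = Y / L := by
      rw [sum_const, nsmul_eq_mul, hc]
      ring
    have e2 : ∑ m ∈ Ioc n (n + Y), (Real.log m - L) / L ^ 2 =
        (∑ m ∈ Ioc n (n + Y), Real.log m - Y * L) / L ^ 2 := by
      rw [← sum_div, sum_sub_distrib, sum_const, nsmul_eq_mul, hc]
    rw [sum_sub_distrib, e1, e2]
  obtain ⟨h6, h7⟩ := sum_log (n := n) (Y := Y) hn
  have hnYr : (0:ℝ) < ((n + Y : ℕ) : ℝ) := by exact_mod_cast (by omega : 0 < n + Y)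
  have h8 : (((n + Y : ℕ) : ℝ) * Real.log ((n + Y : ℕ) : ℝ) - (n + Y : ℕ)) - ((n : ℝ) * Real.log n - n) =
      Y * L + Y * (psi0 ((n : ℝ) / Y) - 1) := by
    have e1 : (n : ℝ) / Y + 1 = ((n + Y : ℕ) : ℝ) / Y := by
      push_cast
      field_simp
    unfold psi0
    rw [e1, Real.log_div hnYr.ne' hYp.ne', Real.log_div hn0.ne' hYp.ne', ← hL]
    field_simp
    push_cast
    ring
  have h9 : Real.log ((n + Y : ℕ) : ℝ) - Real.log n ≤ 8 * √(Y : ℝ) := by
    have h10 : 0 ≤ Real.log n := Real.log_natCast_nonneg n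
    have h11 : Real.log ((n + Y : ℕ) : ℝ) ≤ Real.log (Y ^ 2) := by
      apply Real.log_le_log hnYr
      have : (n : ℝ) ≤ Y := by exact_mod_cast hnY
      push_cast
      nlinarith
    have h12 : Real.log ((Y : ℝ) ^ 2) = 4 * Real.log (√(Y : ℝ)) := by
      rw [Real.log_sqrt hYp.le, Real.log_pow]
      push_cast
      ring
    have h13 : Real.log (√(Y : ℝ)) ≤ √(Y : ℝ) := (Real.log_le_sub_one_of_pos hsq).trans (by linarith)
    linarith
  have h14 : |(∑ m ∈ Ioc n (n + Y), Real.log m - Y * L) - Y * (psi0 ((n : ℝ) / Y) - 1)| ≤ 8 * √(Y : ℝ) := by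
    rw [abs_le]
    constructor
    · have : 0 ≤ 8 * √(Y : ℝ) := by positivity
      linarith
    · linarith
  -- assembly
  have h15 : |th Y n * Y - (Y / L + Y * (1 - psi0 ((n : ℝ) / Y)) / L ^ 2)| ≤ (C1 + 100) * (Y / L ^ 3) := by
    rw [hth]
    have e : pc (n + Y) - pc n - (Y / L + Y * (1 - psi0 ((n : ℝ) / Y)) / L ^ 2) =
        ((pc (n + Y) - pc n) - (lis (n + Y) - lis n)) +
        (∑ m ∈ Ioc n (n + Y), 1 / Real.log m - ∑ m ∈ Ioc n (n + Y), (1 / L - (Real.log m - L) / L ^ 2)) -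
        ((∑ m ∈ Ioc n (n + Y), Real.log m - Y * L) - Y * (psi0 ((n : ℝ) / Y) - 1)) / L ^ 2 := by
      rw [lis_eq n Y hn, h5]
      field_simp
      ring
    rw [e]
    have h16 : |((∑ m ∈ Ioc n (n + Y), Real.log m - Y * L) - Y * (psi0 ((n : ℝ) / Y) - 1)) / L ^ 2| ≤ 8 * √(Y : ℝ) := by
      rw [abs_div, abs_of_pos (show 0 < L ^ 2 by positivity)]
      rw [div_le_iff₀ (by positivity)]
      have : (1:ℝ) ≤ L ^ 2 := by nlinarith
      nlinarith [Real.sqrt_nonneg (Y : ℝ)]
    have h17 : 2 / L ^ 3 * (33 * Y) = 66 * (Y / L ^ 3) := by ring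
    rw [h17] at h3
    calc _ ≤ |(pc (n + Y) - pc n) - (lis (n + Y) - lis n)| +
          |∑ m ∈ Ioc n (n + Y), 1 / Real.log m - ∑ m ∈ Ioc n (n + Y), (1 / L - (Real.log m - L) / L ^ 2)| +
          |((∑ m ∈ Ioc n (n + Y), Real.log m - Y * L) - Y * (psi0 ((n : ℝ) / Y) - 1)) / L ^ 2| :=
          (abs_sub _ _).trans (add_le_add (abs_add_le _ _) le_rfl)
      _ ≤ (C1 * (Y / L ^ 3) + 4 * √(Y : ℝ)) + (66 * (Y / L ^ 3) + 4 * √(Y : ℝ)) + 8 * √(Y : ℝ) := by
          gcongr
      _ ≤ _ := by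
          have h18 : 0 ≤ (Y : ℝ) / L ^ 3 := by positivity
          nlinarith
  have h19 : th Y n * Y - (Y / L + Y * (1 - psi0 ((n : ℝ) / Y)) / L ^ 2) =
      (th Y n - (1 / L + (1 - psi0 ((n : ℝ) / Y)) / L ^ 2)) * Y := by ring
  rw [h19, abs_mul, abs_of_pos hYp] at h15
  have h20 : (C1 + 100) * ((Y : ℝ) / L ^ 3) = ((C1 + 100) / L ^ 3) * Y := by ring
  rw [h20] at h15
  exact le_of_mul_le_mul_right h15 hYp

end Pool.Agent.Q178.GC
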