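import Pool.Agent.Q145.GC.Spec3

set_option autoImplicit false

/-! # Project GC: random subsets (job GC12) -/

namespace Pool.Agent.Q178.GC

open Finset
open Pool.Agent.Q145.GC

open scoped Classical

/-- the number of the sets with `X` elements which contain `A` -/
theorem card_supersets (U A : Finset ℕ) (X : ℕ) (hA : A ⊆ U) (hX : A.card ≤ X) :
    ((powersetCard X U).filter (fun V => A ⊆ V)).card = (U.card - A.card).choose (X - A.card) := by
  rw [← card_sdiff_of_subset hA, ← card_powersetCard]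
  apply card_nbij' (fun V => V \ A) (fun B => B ∪ A)
  · intro V hV
    rw [mem_coe, mem_filter, mem_powersetCard] at hV
    rw [mem_coe, mem_powersetCard]
    exact ⟨sdiff_subset_sdiff hV.1.1 (Subset.refl _), by rw [card_sdiff_of_subset hV.2, hV.1.2]⟩
  · intro B hB
    rw [mem_coe, mem_powersetCard] at hB
    rw [mem_coe, mem_filter, mem_powersetCard]
    have hd : Disjoint B A := by
      rw [disjoint_left]
      intro x hx
      exact (mem_sdiff.1 (hB.1 hx)).2
    refine ⟨⟨union_subset (hB.1.trans sdiff_subset) hA, ?_⟩, subset_union_right⟩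
    show (B ∪ A).card = X
    rw [card_union_of_disjoint hd, hB.2]
    omega
  · intro V hV
    rw [mem_coe, mem_filter] at hV
    exact sdiff_union_of_subset hV.2
  · intro B hB
    rw [mem_coe, mem_powersetCard] at hB
    have hd : Disjoint B A := by
      rw [disjoint_left]
      intro x hx
      exact (mem_sdiff.1 (hB.1 hx)).2
    show (B ∪ A) \ A = B
    rw [union_sdiff_right, sdiff_eq_self_of_disjoint hd]

theorem card_supersets_zero (U A : Finset ℕ) (X : ℕ) (hX : X < A.card) :
    ((powersetCard X U).filter (fun V => A ⊆ V)).card = 0 := by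
  rw [card_eq_zero, filter_eq_empty_iff]
  intro V hV h
  have := card_le_card h
  rw [(mem_powersetCard.1 hV).2] at this
  omega

theorem choose_ratio (u X : ℕ) (hX : X ≤ u) (a : ℕ) (ha : a ≤ X) :
    ((u - a).choose (X - a) : ℝ) * (u : ℝ) ^ a ≤ (u.choose X : ℝ) * (X : ℝ) ^ a := by
  induction a with
  | zero => simp
  | succ a ih =>
    have h1 := ih (by omega)
    obtain ⟨d, hd⟩ : ∃ d, u - a = d + 1 := ⟨u - a - 1, by omega⟩
    obtain ⟨e, he⟩ : ∃ e, X - a = e + 1 := ⟨X - a - 1, by omega⟩
    have h2 : (d + 1) * d.choose e = (d + 1).choose (e + 1) * (e + 1) := Nat.add_one_mul_choose_eq d e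
    have h3 : u - (a + 1) = d := by omega
    have h4 : X - (a + 1) = e := by omega
    rw [h3, h4]
    rw [hd, he] at h1
    have h2' : ((d:ℝ) + 1) * (d.choose e : ℝ) = ((d + 1).choose (e + 1) : ℝ) * (e + 1) := by exact_mod_cast h2
    have h5 : ((d:ℝ) + 1) = u - a := by
      have : u = a + (d + 1) := by omega
      rw [this]; push_cast; ring
    have h6 : ((e:ℝ) + 1) = X - a := by
      have : X = a + (e + 1) := by omega
      rw [this]; push_cast; ring
    have h7 : (0:ℝ) < (d:ℝ) + 1 := by positivity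
    have h8 : ((e:ℝ) + 1) * u ≤ X * ((d:ℝ) + 1) := by
      rw [h5, h6]
      have hXr : (X:ℝ) ≤ u := by exact_mod_cast hX
      have ha0 : (0:ℝ) ≤ a := Nat.cast_nonneg a
      nlinarith
    have h9 : ((d:ℝ) + 1) * ((d.choose e : ℝ) * (u : ℝ) ^ (a + 1)) ≤
        ((d:ℝ) + 1) * ((u.choose X : ℝ) * (X : ℝ) ^ (a + 1)) := by
      calc ((d:ℝ) + 1) * ((d.choose e : ℝ) * (u : ℝ) ^ (a + 1)) =
            (((d:ℝ) + 1) * (d.choose e : ℝ)) * (u : ℝ) ^ a * u := by ring
        _ = (((d + 1).choose (e + 1) : ℝ) * (u : ℝ) ^ a) * (((e:ℝ) + 1) * u) := by rw [h2']; ring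
        _ ≤ ((u.choose X : ℝ) * (X : ℝ) ^ a) * (X * ((d:ℝ) + 1)) := by
            apply mul_le_mul h1 h8 (by positivity) (by positivity)
        _ = _ := by ring
    exact le_of_mul_le_mul_left h9 h7

theorem sub1 : S_Sub1 := by
  intro U X a F hX hF
  have h1 : ∑ V ∈ powersetCard X U, ∑ A ∈ powersetCard a V, F A =
      ∑ A ∈ powersetCard a U, F A * (((powersetCard X U).filter (fun V => A ⊆ V)).card : ℝ) := by
    have e1 : ∀ V ∈ powersetCard X U, ∑ A ∈ powersetCard a V, F A =
        ∑ A ∈ powersetCard a U, if A ⊆ V then F A else 0 := by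
      intro V hV
      rw [← sum_filter]
      apply sum_congr _ (fun _ _ => rfl)
      ext A
      rw [mem_filter, mem_powersetCard, mem_powersetCard]
      constructor
      · rintro ⟨h2, h3⟩
        exact ⟨⟨h2.trans (mem_powersetCard.1 hV).1, h3⟩, h2⟩
      · rintro ⟨⟨_, h3⟩, h2⟩
        exact ⟨h2, h3⟩
    rw [sum_congr rfl e1, sum_comm]
    apply sum_congr rfl
    intro A _
    rw [← sum_filter, sum_const, nsmul_eq_mul, mul_comm]
  rw [h1, sum_mul, mul_sum]
  apply sum_le_sum
  intro A hA
  obtain ⟨hAU, hAa⟩ := mem_powersetCard.1 hA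
  rcases Nat.lt_or_ge X a with h | h
  · rw [card_supersets_zero U A X (by omega)]
    simp only [Nat.cast_zero, mul_zero, zero_mul]
    exact mul_nonneg (by positivity) (hF A)
  · rw [card_supersets U A X hAU (by omega), hAa]
    have := mul_le_mul_of_nonneg_left (choose_ratio U.card X hX a h) (hF A)
    calc F A * ((U.card - a).choose (X - a) : ℝ) * (U.card : ℝ) ^ a =
        F A * (((U.card - a).choose (X - a) : ℝ) * (U.card : ℝ) ^ a) := by ring
      _ ≤ _ := this
      _ = _ := by ring

theorem sub2 : S_Sub2 := by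
  intro U X g hX
  rcases Nat.eq_zero_or_pos U.card with hu | hu
  · have hU : U = ∅ := card_eq_zero.1 hu
    subst hU
    simp only [card_empty, Nat.le_zero] at hX
    subst hX
    simp
  set u := U.card with hudef
  have hur : (0:ℝ) < u := by exact_mod_cast hu
  set C : ℝ := (u.choose X : ℝ) with hC
  have hC0 : 0 ≤ C := Nat.cast_nonneg _
  -- single elements
  have hN1 : ∀ n ∈ U, (((powersetCard X U).filter (fun V => n ∈ V)).card : ℝ) = C * ((X:ℝ) / u) := by
    intro n hn
    have e0 : (powersetCard X U).filter (fun V => n ∈ V) = (powersetCard X U).filter (fun V => {n} ⊆ V) := by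
      apply filter_congr
      intro V _
      rw [singleton_subset_iff]
    rw [e0]
    rcases Nat.eq_zero_or_pos X with h0 | h0
    · rw [card_supersets_zero U {n} X (by rw [card_singleton]; omega), h0]
      simp
    · rw [card_supersets U {n} X (singleton_subset_iff.2 hn) (by rw [card_singleton]; omega), card_singleton, ← hudef]
      obtain ⟨d, hd⟩ : ∃ d, u = d + 1 := ⟨u - 1, by omega⟩
      obtain ⟨e, he⟩ : ∃ e, X = e + 1 := ⟨X - 1, by omega⟩
      have h2 : (d + 1) * d.choose e = (d + 1).choose (e + 1) * (e + 1) := Nat.add_one_mul_choose_eq d e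
      have h2' : ((d:ℝ) + 1) * (d.choose e : ℝ) = ((d + 1).choose (e + 1) : ℝ) * (e + 1) := by exact_mod_cast h2
      rw [hC, hd, he, Nat.add_sub_cancel, Nat.add_sub_cancel, mul_div_assoc', eq_div_iff (by positivity)]
      push_cast
      linarith
  -- pairs
  obtain ⟨N2, hN20, hN2, hN2'⟩ : ∃ N2 : ℝ, 0 ≤ N2 ∧ N2 ≤ C * ((X:ℝ) / u) ^ 2 ∧ ∀ n ∈ U, ∀ m ∈ U, n ≠ m →
      (((powersetCard X U).filter (fun V => n ∈ V ∧ m ∈ V)).card : ℝ) = N2 := by
    refine ⟨if 2 ≤ X then ((u - 2).choose (X - 2) : ℝ) else 0, ?_, ?_, ?_⟩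
    · split_ifs <;> positivity
    · split_ifs with h
      · have := choose_ratio u X hX 2 h
        rw [div_pow, mul_div_assoc', le_div_iff₀ (by positivity)]
        exact this
      · positivity
    · intro n hn m hm hnm
      have e0 : (powersetCard X U).filter (fun V => n ∈ V ∧ m ∈ V) =
          (powersetCard X U).filter (fun V => {n, m} ⊆ V) := by
        apply filter_congr
        intro V _
        rw [insert_subset_iff, singleton_subset_iff]
      have hc : ({n, m} : Finset ℕ).card = 2 := card_pair hnm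
      rw [e0]
      split_ifs with h
      · rw [card_supersets U {n, m} X (by
          rw [insert_subset_iff, singleton_subset_iff]
          exact ⟨hn, hm⟩) (by omega), hc]
      · rw [card_supersets_zero U {n, m} X (by omega)]
        simp
  set p : ℝ := (X:ℝ) / u with hp
  have hp0 : 0 ≤ p := by positivity
  set G : ℝ := ∑ n ∈ U, g n with hG
  set S2 : ℝ := ∑ n ∈ U, g n ^ 2 with hS2
  have hS20 : 0 ≤ S2 := sum_nonneg fun n _ => sq_nonneg _
  have hcardP : ((powersetCard X U).card : ℝ) = C := by rw [card_powersetCard]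
  -- sums over V as sums over U
  have hsub : ∀ V ∈ powersetCard X U, ∑ n ∈ V, g n = ∑ n ∈ U, if n ∈ V then g n else 0 := by
    intro V hV
    rw [← sum_filter, filter_mem_eq_inter, inter_eq_right.2 (mem_powersetCard.1 hV).1]
  have hA1 : ∑ V ∈ powersetCard X U, ∑ n ∈ V, g n = C * p * G := by
    rw [sum_congr rfl hsub, sum_comm, hG, mul_sum]
    apply sum_congr rfl
    intro n hn
    rw [← sum_filter, sum_const, nsmul_eq_mul, hN1 n hn]
  have hA2 : ∑ V ∈ powersetCard X U, (∑ n ∈ V, g n) ^ 2 = N2 * G ^ 2 + (C * p - N2) * S2 := by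
    have e1 : ∀ V ∈ powersetCard X U, (∑ n ∈ V, g n) ^ 2 = ∑ n ∈ U, ∑ m ∈ U, if n ∈ V ∧ m ∈ V then g n * g m else 0 := by
      intro V hV
      rw [hsub V hV, sq, sum_mul_sum]
      apply sum_congr rfl
      intro n _
      apply sum_congr rfl
      intro m _
      by_cases h1 : n ∈ V <;> by_cases h2 : m ∈ V <;> simp [h1, h2]
    rw [sum_congr rfl e1, sum_comm]
    have e2 : ∀ n ∈ U, ∑ V ∈ powersetCard X U, ∑ m ∈ U, (if n ∈ V ∧ m ∈ V then g n * g m else 0) =
        N2 * (g n * G) + (C * p - N2) * g n ^ 2 := by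
      intro n hn
      rw [sum_comm]
      have e3 : ∀ m ∈ U, ∑ V ∈ powersetCard X U, (if n ∈ V ∧ m ∈ V then g n * g m else 0) =
          N2 * (g n * g m) + (if m = n then (C * p - N2) * g n ^ 2 else 0) := by
        intro m hm
        rw [← sum_filter, sum_const, nsmul_eq_mul]
        by_cases h : m = n
        · subst h
          simp only [and_self, if_true]
          rw [hN1 m hm]
          ring
        · rw [hN2' n hn m hm (Ne.symm h), if_neg h, add_zero]
      rw [sum_congr rfl e3, sum_add_distrib, sum_ite_eq' U n, if_pos hn, ← mul_sum, ← mul_sum]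
    rw [sum_congr rfl e2, sum_add_distrib, ← mul_sum, ← mul_sum, ← sum_mul]
    rw [← hG, ← hS2]
    ring
  have hexp : ∀ q : ℝ, ∑ V ∈ powersetCard X U, (∑ n ∈ V, g n - q) ^ 2 =
      ∑ V ∈ powersetCard X U, (∑ n ∈ V, g n) ^ 2 - 2 * q * ∑ V ∈ powersetCard X U, ∑ n ∈ V, g n +
        C * q ^ 2 := by
    intro q
    rw [← hcardP, ← nsmul_eq_mul, ← sum_const, mul_sum, ← sum_sub_distrib, ← sum_add_distrib]
    apply sum_congr rfl
    intro V _
    ring
  rw [hexp (p * G), hA1, hA2]
  have h1 : N2 * G ^ 2 + (C * p - N2) * S2 - 2 * (p * G) * (C * p * G) + C * (p * G) ^ 2 =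
      C * (p * S2) - N2 * S2 - (C * p ^ 2 - N2) * G ^ 2 := by ring
  rw [h1]
  have h2 : 0 ≤ (C * p ^ 2 - N2) * G ^ 2 := mul_nonneg (by linarith) (sq_nonneg _)
  have h3 : 0 ≤ N2 * S2 := mul_nonneg hN20 hS20
  linarith

end Pool.Agent.Q178.GC
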